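import Pool.Agent.Q152.EM.Lc

/-!
# Functions with finitely many values and locally constant functions

`Closed C` (`Pool.Agent.Y462.SS.Base`): the class `C` of groups contains `ℤ` and is closed under
groups that embed, finite products, free products, overgroups of finite index and colimits of directed
systems.  `ExtClosed C`: if `G` maps onto a group `Q` of `C`, and the kernel and the preimages of all
infinite cyclic subgroups of `Q` are in `C`, then `G` is in `C`.  These properties are known for the
class of the groups which satisfy the Farrell–Jones conjecture for `A`-theory with coefficients and
finite wreath products (Enkelmann, Lück, Pieper, Ullmann and Winges).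

`Wr X P` is the unrestricted wreath product `P ^ X ⋊ Sym(X)`.  `FV P X H` is the semidirect product of
the group of all functions `X → P` with finitely many values and the group `H` which acts on `X`;
`LC P X H` is the semidirect product of the group of the locally constant functions on the space `X` with
values in `P` and the group `H` which acts on `X` by homeomorphisms.

Proof.  Over an infinite cyclic group `⟨g⟩` the group is a directed colimit of HNN extensions whose base
groups are the functions `P ^ k` which are constant on the classes of a finite partition `k` of `X`.
There are bi-infinite walks in the finite graph of the transitions between the classes under `g` through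
each class which are periodic near both ends.  They give a homomorphism of the HNN extension, injective on
the base, to a finite power of the group of eventually periodic functions `ℤ → P` extended by `ℤ`, and
this group is in the class since modulo the functions of finite support it is an extension of a finite
power of `P` by `ℤ` of finite order up to finite index.
-/

set_option autoImplicit false

namespace Pool.Agent.Results.MP_2a547c_gt.FiniteValued

open Pool.Agent.Y462.SS Pool.Agent.Q152.WP Pool.Agent.Q152.EM

/-- Let `C` be a class of groups with the closure properties `Closed C` and `ExtClosed C`.
(1) Let `P`, `H` be groups of `C` and let `H` act on a set `X`.  The group of the functions `X → P` with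
finitely many values, extended by `H`, is in `C`.
(2) Let `P`, `H` be groups of `C` and let `H` act by homeomorphisms on a compact space `X`.  The group of
the locally constant functions `X → P`, extended by `H`, is in `C`.
(3) More generally, let `W` be a group with a homomorphism `j` to `P ^ X ⋊ Sym(X)` and a homomorphism `f`
onto a group of `C`.  Suppose that `j` is injective on the kernel of `f` and maps it to `P ^ X`, and that
the functions of all elements of `j(W)` have finitely many values.  Then `W` is in `C`.
(4) If `P` and `H` are torsion-free, so is the group in (1). -/
theorem result :
    (∀ C : ∀ (G : Type) [Group G], Prop, Closed C → ExtClosed C →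
      (∀ (P X H : Type) [Group P] [Group H] [MulAction H X], C P → C H → C (FV P X H)) ∧
      (∀ (P X H : Type) [Group P] [Group H] [TopologicalSpace X] [CompactSpace X] [MulAction H X]
        [ContinuousConstSMul H X], C P → C H → C (LC P X H)) ∧
      (∀ (P X W Q : Type) [Group P] [Group W] [Group Q] (j : W →* Wr X P) (f : W →* Q),
        Function.Surjective f → C P → C Q → (∀ w, f w = 1 → (j w).p = 1) →
        (∀ w, f w = 1 → j w = 1 → w = 1) → (∀ w, (Set.range (j w).s).Finite) → C W)) ∧
    (∀ (P X H : Type) [Group P] [Group H] [MulAction H X],
      (∀ u : P, IsOfFinOrder u → u = 1) → (∀ h : H, IsOfFinOrder h → h = 1) →
        ∀ a : FV P X H, IsOfFinOrder a → a = 1) := by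
  refine ⟨?_, ?_⟩
  · intro C hC hE
    refine ⟨?_, ?_, ?_⟩
    · intro P X H _ _ _ hP hH
      exact fv_mem hC hE hP hH
    · intro P X H _ _ _ _ _ _ hP hH
      exact lc_mem hC hE hP hH
    · intro P X W Q _ _ _ j f hf hP hQ hp hinj hfin
      exact fvr j f hp hfin hinj hC hE hP hf hQ
  · intro P X H _ _ _ hP hH a ha
    exact fv_torsionFree hP hH a ha

end Pool.Agent.Results.MP_2a547c_gt.FiniteValued
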