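import Pool.Agent.H106FJ.InfV

/-!
# Farrell–Jones type classes: spinal groups over infinite alphabets

`C` is any class of groups with the closure properties `Closed C` and `ExtClosed C`, all of which are
known for the class of the groups that satisfy the A-theoretic Farrell–Jones conjecture with
coefficients and finite wreath products.  `X` is an arbitrary set of letters, finite or infinite.

`H n` are groups of permutations of `X` in `C`, `D n` groups in `C` of automorphisms of the tree of
words `X^*` which fix the first letters, whose sections at the letter `d` are in `D (n + 1)` and whose
sections at the other letters are in `H (n + 1)` (permuting the next letter); every element of `D n`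
has only finitely many different sections.  Then every group generated by elements of `H 0` (permuting
the first letter) and of `D 0` is in `C`.
-/

set_option autoImplicit false

namespace Pool.Agent.Results.MP_2a547c_gt.InfiniteSpinalGroups

open Pool.Agent.Y462.SS Pool.Agent.Q152.WP Pool.Agent.H106FJ

theorem result (C : ∀ (G : Type) [Group G], Prop) (hC : Closed C) (hE : ExtClosed C)
    (X : Type) (d : X) (H : ℕ → Subgroup (Equiv.Perm X)) (D : ℕ → Subgroup (Equiv.Perm (List X)))
    (h : SpinalV d H D) (hH : ∀ n, C (H n)) (hD : ∀ n, C (D n))
    (G : Type) [Group G] (f : G →* Equiv.Perm (List X)) (hf : Function.Injective f)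
    (S : Set G) (hS : Subgroup.closure S = ⊤) (hg : ∀ s ∈ S, f s ∈ D 0 ∨ ∃ a ∈ H 0, f s = rt a) :
    C G :=
  h.mem hC hE hH hD G f hf S hS hg

end Pool.Agent.Results.MP_2a547c_gt.InfiniteSpinalGroups
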