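import Pool.Agent.Q152.WP.PK

/-!
# Extensions whose kernel is a restricted direct product with permuted factors

`Closed C` (`Pool.Agent.Y462.SS.Base`): the class `C` of groups contains `ℤ` and is closed under
groups that embed, finite products, free products, overgroups of finite index and colimits of directed
systems.  `ExtClosed C`: if `G` maps onto a group `Q` of `C`, and the kernel and the preimages of all
infinite cyclic subgroups of `Q` are in `C`, then `G` is in `C`.  These properties are known for the
class of the groups which satisfy the Farrell–Jones conjecture for `A`-theory with coefficients and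
finite wreath products (Enkelmann, Lück, Pieper, Ullmann and Winges).

`Dec N ι D`: an identification of the group `N` with the restricted direct product of the groups
`D i`, `i` in `ι`, given by the inclusions `sg i` and the projections `ev i` of the factors.
`d.stab g i` is the map `u ↦ (g u g⁻¹)_i` of `D i` to itself; if conjugation by `g` maps the factor
`D i` to itself, it is the induced automorphism.  `ByCyc C D A`: every group `L` with a homomorphism to
`ℤ` whose kernel is identified with `D` in such a way that `L` acts on `D` by maps in `A` is in `C`.
`ByCyclic C D`: the same without a condition on the action.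

Proof.  Over an infinite cyclic subgroup of the quotient, an infinite orbit of factors gives a restricted
wreath product of a factor and `ℤ`, a directed colimit of subgroups of finite wreath products, and a finite
orbit gives after passing to a subgroup of finite index a product of groups `D i`-by-`ℤ`.
-/

set_option autoImplicit false

namespace Pool.Agent.Results.MP_2a547c_gt.PermutedFactors

open Pool.Agent.Y462.SS Pool.Agent.Q152.WP

/-- Let `C` be a class of groups with the closure properties `Closed C` and `ExtClosed C`.  Let `f` be a
homomorphism of `G` onto a group of `C` whose kernel is the restricted direct product of groups `D i` of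
`C`.  Let `G` act by `π` on the index set, the kernel acting trivially, such that conjugation by `g` maps
the elements of the kernel with trivial component at `i` to elements with trivial component at `π g i`
(so it maps the factor `D i` to the factor with index `π g i`).
(1) If the groups `D i`-by-`ℤ` with the actions on `D i` induced by elements of the stabiliser of `i`
in `G` are in `C` (they act by maps in a set `A i` with `ByCyc C (D i) (A i)`), then `G` is in `C`.
(2) If all groups `D i`-by-`ℤ` are in `C`, then `G` is in `C`.
(3) If the stabiliser of `i` acts on `D i` by inner automorphisms of `D i`, for all `i`, then `G` is in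
`C`. -/
theorem result (C : ∀ (G : Type) [Group G], Prop) (hC : Closed C) (hE : ExtClosed C)
    (G Q : Type) [Group G] [Group Q] (f : G →* Q) (hf : Function.Surjective f) (hQ : C Q)
    (ι : Type) (D : ι → Type) [∀ i, Group (D i)] (d : Dec f.ker ι D)
    (π : G →* Equiv.Perm ι) (hπk : ∀ y ∈ f.ker, π y = 1)
    (hπ : ∀ (g y : G) (hy : y ∈ f.ker) (i : ι) (hy' : g * y * g⁻¹ ∈ f.ker),
      d.ev i ⟨y, hy⟩ = 1 → d.ev (π g i) ⟨g * y * g⁻¹, hy'⟩ = 1)
    (hCD : ∀ i, C (D i)) :
    (∀ A : ∀ i, Set (D i → D i), (∀ i, ByCyc C (D i) (A i)) →
      (∀ (g : G) (i : ι), π g i = i → d.stab g i ∈ A i) → C G) ∧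
    ((∀ i, ByCyclic C (D i)) → C G) ∧
    ((∀ (g : G) (i : ι), π g i = i → ∃ v : D i, ∀ u, d.stab g i u = v * u * v⁻¹) → C G) := by
  refine ⟨?_, ?_, ?_⟩
  · intro A hcy hA
    exact permuted hC hE f hf hQ d π hπk hπ hCD A hcy hA
  · intro h
    refine permuted hC hE f hf hQ d π hπk hπ hCD (fun _ => Set.univ) ?_ (fun _ _ _ => trivial)
    intro i L _ φ e _
    exact h i L φ ⟨e⟩
  · intro h
    exact permuted hC hE f hf hQ d π hπk hπ hCD (fun i => {α | ∃ v : D i, ∀ u, α u = v * u * v⁻¹})
      (fun i => byCyc_inner hC (hCD i)) h

end Pool.Agent.Results.MP_2a547c_gt.PermutedFactors
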