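import Pool.Agent.Q152.EM.Two

/-!
# Subgroups of unrestricted wreath products

`Closed C` (`Pool.Agent.Y462.SS.Base`): the class `C` of groups contains `ℤ` and is closed under
groups that embed, finite products, free products, overgroups of finite index and colimits of directed
systems.  `ExtClosed C`: if `G` maps onto a group `Q` of `C`, and the kernel and the preimages of all
infinite cyclic subgroups of `Q` are in `C`, then `G` is in `C`.  These properties are known for the
class of the groups which satisfy the Farrell–Jones conjecture for `A`-theory with coefficients and
finite wreath products (Enkelmann, Lück, Pieper, Ullmann and Winges).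

`Wr X H` is the unrestricted wreath product `H ^ X ⋊ Sym(X)` of `H` and the symmetric group of the set
`X`: pairs of a function `s : X → H` and a permutation `p` of `X`.  `Nf X H` is the normal subgroup of the
functions `X → H` with finite support.

Proof.  Over an infinite cyclic subgroup of the quotient the group is a directed colimit of HNN
extensions of groups `U` of functions with support in a finite set `S`, in which the stable letter acts
by a partial injection `p` of `S` and values of a function `S → H`.  A permutation of `S` which extends `p`
gives a homomorphism of the HNN extension to the wreath product of `H` and the symmetric group of `S`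
which is injective on `U`.
-/

set_option autoImplicit false

namespace Pool.Agent.Results.MP_2a547c_gt.UnrestrictedWreath

open Pool.Agent.Y462.SS Pool.Agent.Q152.WP Pool.Agent.Q152.EM

/-- Let `C` be a class of groups with the closure properties `Closed C` and `ExtClosed C`, `H` a group
of `C` and `X` a set of any cardinality.
(1) Every subgroup `W` of the unrestricted wreath product of `H` and `Sym(X)` whose image in the quotient
by the functions of finite support is in `C` is in `C`.
(2) The same for every group `W` with an injective homomorphism `j` to the unrestricted wreath product and
a homomorphism onto a group of `C` whose kernel is mapped to functions of finite support. -/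
theorem result (C : ∀ (G : Type) [Group G], Prop) (hC : Closed C) (hE : ExtClosed C)
    (X H : Type) [Group H] (hH : C H) :
    (∀ W : Subgroup (Wr X H), C (W.map (QuotientGroup.mk' (Nf X H))) → C W) ∧
    (∀ (W Q : Type) [Group W] [Group Q] (j : W →* Wr X H) (f : W →* Q),
      Function.Injective j → Function.Surjective f → C Q → (∀ w, f w = 1 → j w ∈ Nf X H) →
        C W) := by
  have h2 : ∀ (W Q : Type) [Group W] [Group Q] (j : W →* Wr X H) (f : W →* Q),
      Function.Injective j → Function.Surjective f → C Q → (∀ w, f w = 1 → j w ∈ Nf X H) →
        C W := by
    intro W Q _ _ j f hj hf hQ h
    exact unr j f h hC hE hH hj hf hQ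
  refine ⟨?_, h2⟩
  intro W hW
  let f : W →* W.map (QuotientGroup.mk' (Nf X H)) :=
    ((QuotientGroup.mk' (Nf X H)).comp W.subtype).codRestrict _
      (fun w => ⟨w.1, w.2, rfl⟩)
  refine h2 W _ W.subtype f W.subtype_injective ?_ hW ?_
  · rintro ⟨_, ⟨w, hw, rfl⟩⟩
    exact ⟨⟨w, hw⟩, rfl⟩
  · intro w hw
    have h3 : (QuotientGroup.mk' (Nf X H)) (w : Wr X H) = 1 := congrArg Subtype.val hw
    exact (QuotientGroup.eq_one_iff _).1 h3

end Pool.Agent.Results.MP_2a547c_gt.UnrestrictedWreath
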